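import Mathlib
import Pool.Agent.Helper24.DC.Defs

/-! Primitive vectors over `L[X]` and adjoining independent weights to an anisotropic form. -/

universe u

namespace Pool.Agent.Helper59.DC

open Finset Polynomial Pool.Agent.Helper24.DC

/-- Every nonzero vector over `FractionRing L[X]` has a multiple which is integral and nonzero
modulo `X`. -/
theorem exists_primitive {L : Type*} [Field L] {ι : Type*} [Finite ι]
    (w : ι → FractionRing L[X]) (hw : w ≠ 0) :
    ∃ (c : FractionRing L[X]) (u : ι → L[X]), c ≠ 0 ∧
      (∀ i, c * w i = algebraMap L[X] (FractionRing L[X]) (u i)) ∧ ∃ i, (u i).coeff 0 ≠ 0 := by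
  classical
  obtain ⟨b, hb⟩ := IsLocalization.exist_integer_multiples_of_finite (nonZeroDivisors L[X]) w
  choose u₀ hu₀ using hb
  have hb0 : algebraMap L[X] (FractionRing L[X]) b ≠ 0 := by
    have := nonZeroDivisors.ne_zero b.2
    exact (map_ne_zero_iff _ (IsFractionRing.injective L[X] (FractionRing L[X]))).mpr this
  have hu₁ : ∀ i, algebraMap L[X] (FractionRing L[X]) b * w i =
      algebraMap L[X] (FractionRing L[X]) (u₀ i) := by
    intro i
    rw [hu₀ i, Algebra.smul_def]
  obtain ⟨i₁, hi₁⟩ : ∃ i, u₀ i ≠ 0 := by
    by_contra hcon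
    push Not at hcon
    apply hw
    funext i
    have := hu₁ i
    rw [hcon i, map_zero] at this
    simpa [hb0] using this
  -- index with minimal trailing degree
  obtain ⟨i₀, hi₀, hmin⟩ : ∃ i₀, u₀ i₀ ≠ 0 ∧ ∀ i, u₀ i ≠ 0 →
      (u₀ i₀).natTrailingDegree ≤ (u₀ i).natTrailingDegree := by
    obtain ⟨i₀, hi₀, hm⟩ := Set.exists_min_image {i | u₀ i ≠ 0}
      (fun i => (u₀ i).natTrailingDegree) (Set.toFinite _) ⟨i₁, hi₁⟩
    exact ⟨i₀, hi₀, fun i hi => hm i hi⟩
  set k := (u₀ i₀).natTrailingDegree with hk
  have hdvd : ∀ i, (X : L[X]) ^ k ∣ u₀ i := by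
    intro i
    by_cases hi : u₀ i = 0
    · rw [hi]; exact dvd_zero _
    · rw [Polynomial.X_pow_dvd_iff]
      intro d hd
      exact Polynomial.coeff_eq_zero_of_lt_natTrailingDegree (lt_of_lt_of_le hd (hmin i hi))
  choose u hu using hdvd
  have hXk : algebraMap L[X] (FractionRing L[X]) (X ^ k) ≠ 0 :=
    (map_ne_zero_iff _ (IsFractionRing.injective L[X] (FractionRing L[X]))).mpr
      (pow_ne_zero _ X_ne_zero)
  refine ⟨algebraMap L[X] (FractionRing L[X]) b / algebraMap L[X] (FractionRing L[X]) (X ^ k), u,
    div_ne_zero hb0 hXk, ?_, i₀, ?_⟩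
  · intro i
    rw [div_mul_eq_mul_div, hu₁ i, hu i, map_mul, mul_div_cancel_left₀ _ hXk]
  · have h1 : (u₀ i₀).coeff k ≠ 0 := by
      have := (Polynomial.trailingCoeff_nonzero_iff_nonzero (p := u₀ i₀)).mpr hi₀
      simpa [Polynomial.trailingCoeff, hk] using this
    rw [hu i₀] at h1
    simpa [Polynomial.coeff_X_pow_mul'] using h1

theorem map_bf {R S : Type*} [CommRing R] [CommRing S] (φ : R →+* S) {ι : Type*} [Fintype ι]
    (B : ι → ι → R) (u v : ι → R) :
    φ (bf B u v) = bf (fun j k => φ (B j k)) (fun j => φ (u j)) (fun j => φ (v j)) := by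
  simp [bf, map_sum, map_mul]

theorem map_lf {R S : Type*} [CommRing R] [CommRing S] (φ : R →+* S) {ι : Type*} [Fintype ι]
    (c u : ι → R) :
    φ (lf c u) = lf (fun j => φ (c j)) (fun j => φ (u j)) := by
  simp [lf, map_sum, map_mul]

theorem bf_smul {R : Type*} [CommRing R] {ι : Type*} [Fintype ι]
    (B : ι → ι → R) (a : R) (u : ι → R) :
    bf B (fun j => a * u j) (fun j => a * u j) = a ^ 2 * bf B u u := by
  unfold bf
  rw [Finset.mul_sum]
  refine Finset.sum_congr rfl fun j _ => ?_
  rw [Finset.mul_sum]
  refine Finset.sum_congr rfl fun k _ => ?_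
  ring

theorem lf_smul {R : Type*} [CommRing R] {ι : Type*} [Fintype ι]
    (c : ι → R) (a : R) (u : ι → R) :
    lf c (fun j => a * u j) = a * lf c u := by
  unfold lf
  rw [Finset.mul_sum]
  refine Finset.sum_congr rfl fun j _ => ?_
  ring

/-- Anisotropy is kept by a purely transcendental extension. -/
theorem Anis.ratFunc {L : Type*} [Field L] {ι : Type*} [Fintype ι] {B : ι → ι → L} {c : ι → L}
    (h : Anis B c) :
    Anis (fun j k => algebraMap L (FractionRing L[X]) (B j k))
      (fun j => algebraMap L (FractionRing L[X]) (c j)) := by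
  intro w hlin hq
  by_contra hw
  obtain ⟨a, u, ha, hau, i, hi⟩ := exists_primitive w hw
  have hinj := IsFractionRing.injective L[X] (FractionRing L[X])
  have hmap : ∀ x : L, algebraMap L (FractionRing L[X]) x =
      algebraMap L[X] (FractionRing L[X]) (C x) := by
    intro x
    rw [IsScalarTower.algebraMap_apply L L[X] (FractionRing L[X])]
    rfl
  have h1 : lf (fun j => C (c j)) u = 0 := by
    apply hinj
    rw [map_zero, map_lf]
    have : lf (fun j => algebraMap L[X] (FractionRing L[X]) (C (c j)))
        (fun j => algebraMap L[X] (FractionRing L[X]) (u j)) = a *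
        lf (fun j => algebraMap L (FractionRing L[X]) (c j)) w := by
      rw [← lf_smul]
      simp only [hmap, hau]
    rw [this, hlin, mul_zero]
  have h2 : bf (fun j k => C (B j k)) u u = 0 := by
    apply hinj
    rw [map_zero, map_bf]
    have : bf (fun j k => algebraMap L[X] (FractionRing L[X]) (C (B j k)))
        (fun j => algebraMap L[X] (FractionRing L[X]) (u j))
        (fun j => algebraMap L[X] (FractionRing L[X]) (u j)) = a ^ 2 *
        bf (fun j k => algebraMap L (FractionRing L[X]) (B j k)) w w := by
      rw [← bf_smul]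
      simp only [hmap, hau]
    rw [this, hq, mul_zero]
  have h3 := congrArg (Polynomial.constantCoeff) h1
  have h4 := congrArg (Polynomial.constantCoeff) h2
  rw [map_lf] at h3
  rw [map_bf] at h4
  simp only [Polynomial.constantCoeff_apply, coeff_C_zero, map_zero, coeff_zero] at h3 h4
  exact hi (congrFun (h _ h3 h4) i)

/-- Adjoining independent weights: if a quadratic form with a linear constraint is anisotropic over
`L`, then over a suitable extension there are `r` weights such that the weighted sum of `r` copies
is anisotropic. -/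
theorem exists_weights_aux (L : Type u) [Field L] (r : ℕ) :
    ∃ (F : Type u) (_ : Field F) (_ : Algebra L F) (s : Fin r → F),
      ∀ (ι : Type) [Fintype ι] (B : ι → ι → L) (c : ι → L), Anis B c →
        Anis (fun j k => algebraMap L F (B j k)) (fun j => algebraMap L F (c j)) ∧
        ∀ w : Fin r → ι → F, (∀ i, lf (fun j => algebraMap L F (c j)) (w i) = 0) →
          ∑ i, s i * bf (fun j k => algebraMap L F (B j k)) (w i) (w i) = 0 → w = 0 := by
  induction r with
  | zero =>
    refine ⟨L, inferInstance, inferInstance, Fin.elim0, ?_⟩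
    intro ι _ B c h
    refine ⟨by simpa using h, ?_⟩
    intro w _ _
    funext i
    exact i.elim0
  | succ r ih =>
    obtain ⟨F₀, iF₀, iA, s, hs⟩ := ih
    let _ := iF₀
    let _ := iA
    let F := FractionRing F₀[X]
    refine ⟨F, inferInstance, inferInstance,
      Fin.snoc (fun i => algebraMap F₀ F (s i)) (algebraMap F₀[X] F X), ?_⟩
    intro ι _ B c h
    obtain ⟨hA, hW⟩ := hs ι B c h
    have htow : ∀ x : L, algebraMap L F x = algebraMap F₀ F (algebraMap L F₀ x) := by
      intro x
      exact IsScalarTower.algebraMap_apply L F₀ F x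
    have hmap : ∀ x : F₀, algebraMap F₀ F x = algebraMap F₀[X] F (C x) := by
      intro x
      rw [IsScalarTower.algebraMap_apply F₀ F₀[X] F]
      rfl
    refine ⟨?_, ?_⟩
    · have := Anis.ratFunc hA
      simpa only [htow] using this
    intro w hlin hq
    by_contra hw
    have hw' : (fun p : Fin (r + 1) × ι => w p.1 p.2) ≠ 0 := by
      intro h0
      apply hw
      funext i j
      exact congrFun h0 (i, j)
    obtain ⟨a, u, ha, hau, ⟨i, j⟩, hij⟩ := exists_primitive _ hw'
    have hinj := IsFractionRing.injective F₀[X] F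
    have hau' : ∀ i j, algebraMap F₀[X] F (u (i, j)) = a * w i j := fun i j => (hau (i, j)).symm
    set c' : ι → F₀[X] := fun j => C (algebraMap L F₀ (c j)) with hc'
    set B' : ι → ι → F₀[X] := fun j k => C (algebraMap L F₀ (B j k)) with hB'
    have h1 : ∀ i, lf c' (fun j => u (i, j)) = 0 := by
      intro i
      apply hinj
      rw [map_zero, map_lf]
      have : lf (fun j => algebraMap F₀[X] F (c' j))
          (fun j => algebraMap F₀[X] F (u (i, j))) = a *
          lf (fun j => algebraMap L F (c j)) (w i) := by
        rw [← lf_smul]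
        simp only [htow, hmap, hau', hc']
      rw [this, hlin, mul_zero]
    have h2 : ∑ i : Fin r, C (s i) * bf B' (fun j => u (i.castSucc, j)) (fun j => u (i.castSucc, j))
        + X * bf B' (fun j => u (Fin.last r, j)) (fun j => u (Fin.last r, j)) = 0 := by
      apply hinj
      have key : ∀ i, algebraMap F₀[X] F (bf B' (fun j => u (i, j)) (fun j => u (i, j))) = a ^ 2 *
          bf (fun j k => algebraMap L F (B j k)) (w i) (w i) := by
        intro i
        rw [map_bf, ← bf_smul]
        simp only [htow, hmap, hau', hB']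
      rw [map_zero, map_add, map_mul, map_sum]
      simp only [map_mul, key]
      have : (∑ x : Fin r, algebraMap F₀[X] F (C (s x)) *
          (a ^ 2 * bf (fun j k => algebraMap L F (B j k)) (w x.castSucc) (w x.castSucc))) +
          algebraMap F₀[X] F X * (a ^ 2 * bf (fun j k => algebraMap L F (B j k))
            (w (Fin.last r)) (w (Fin.last r))) =
          a ^ 2 * ∑ i, (Fin.snoc (α := fun _ => F) (fun i => algebraMap F₀ F (s i))
            (algebraMap F₀[X] F X) : Fin (r + 1) → F) i *
            bf (fun j k => algebraMap L F (B j k)) (w i) (w i) := by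
        rw [Fin.sum_univ_castSucc]
        simp only [Fin.snoc_castSucc, Fin.snoc_last, hmap]
        rw [mul_add, Finset.mul_sum]
        congr 1
        · refine Finset.sum_congr rfl fun i _ => ?_
          ring
        · ring
      rw [this, hq, mul_zero]
    -- reduction modulo X
    have h3 : ∀ i : Fin r, ∀ j, (u (i.castSucc, j)).coeff 0 = 0 := by
      have e1 := congrArg (Polynomial.constantCoeff) h2
      rw [map_add, map_mul, map_sum] at e1
      simp only [map_mul, map_bf, hB', Polynomial.constantCoeff_apply, coeff_C_zero,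
        coeff_X_zero, zero_mul, add_zero, coeff_zero] at e1
      have e2 : ∀ i : Fin r, lf (fun j => algebraMap L F₀ (c j))
          (fun j => (u (i.castSucc, j)).coeff 0) = 0 := by
        intro i
        have e3 := congrArg (Polynomial.constantCoeff) (h1 i.castSucc)
        rw [map_lf] at e3
        simpa only [hc', Polynomial.constantCoeff_apply, coeff_C_zero, coeff_zero] using e3
      have e4 := hW (fun i j => (u (i.castSucc, j)).coeff 0) e2 e1
      intro i j
      exact congrFun (congrFun e4 i) j
    have h5 : ∀ i : Fin r, ∀ j, ∃ v, u (i.castSucc, j) = X * v := by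
      intro i j
      exact Polynomial.X_dvd_iff.mpr (h3 i j)
    choose v hv using h5
    have h6 : X * (X * ∑ i : Fin r, C (s i) * bf B' (v i) (v i)
        + bf B' (fun j => u (Fin.last r, j)) (fun j => u (Fin.last r, j))) = 0 := by
      rw [← h2, mul_add, Finset.mul_sum, Finset.mul_sum]
      congr 1
      refine Finset.sum_congr rfl fun i _ => ?_
      have : (fun j => u (i.castSucc, j)) = fun j => X * v i j := funext fun j => hv i j
      rw [this, bf_smul]
      ring
    have h7 := (mul_eq_zero.mp h6).resolve_left X_ne_zero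
    have h8 : ∀ j, (u (Fin.last r, j)).coeff 0 = 0 := by
      have e1 := congrArg (Polynomial.constantCoeff) h7
      rw [map_add, map_mul] at e1
      simp only [map_bf, hB', Polynomial.constantCoeff_apply, coeff_C_zero,
        coeff_X_zero, zero_mul, zero_add, coeff_zero] at e1
      have e3 := congrArg (Polynomial.constantCoeff) (h1 (Fin.last r))
      rw [map_lf] at e3
      simp only [hc', Polynomial.constantCoeff_apply, coeff_C_zero, coeff_zero] at e3
      have e4 := hA _ e3 e1
      intro j
      exact congrFun e4 j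
    revert hij
    refine Fin.lastCases ?_ (fun i => ?_) i
    · exact fun hij => hij (h8 j)
    · exact fun hij => hij (h3 i j)

theorem exists_weights (L : Type u) [Field L] (r : ℕ) :
    ∃ (F : Type u) (_ : Field F) (_ : Algebra L F) (s : Fin r → F),
      ∀ (ι : Type) [Fintype ι] (B : ι → ι → L) (c : ι → L), Anis B c →
        ∀ w : Fin r → ι → F, (∀ i, lf (fun j => algebraMap L F (c j)) (w i) = 0) →
          ∑ i, s i * bf (fun j k => algebraMap L F (B j k)) (w i) (w i) = 0 → w = 0 := by
  obtain ⟨F, i1, i2, s, h⟩ := exists_weights_aux L r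
  exact ⟨F, i1, i2, s, fun ι _ B c hA => (h ι B c hA).2⟩

end Pool.Agent.Helper59.DC
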