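import Mathlib
import Pool.Agent.Helper73.DC.Defs

/-! Determinantal representations of the multiples of a form of degree `n`: either the common
kernel of the constant part and the linear part is trivial outside a hypersurface of degree less
than `n`, or the form itself is (up to a constant) an `n × n` determinant of linear forms. -/

universe u

namespace Pool.Agent.Helper59.DC

open Finset Matrix Pool.Agent.Helper73.DC

section

variable {K : Type*} [Field K] {S : Type*} [Fintype S]

/-- the scaling of the variables -/
noncomputable def crScale : MvPolynomial S K →ₐ[K] Polynomial (MvPolynomial S K) :=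
  MvPolynomial.aeval fun s => Polynomial.C (MvPolynomial.X s) * Polynomial.X

theorem crScale_X (s : S) : crScale (K := K) (MvPolynomial.X s) =
    Polynomial.C (MvPolynomial.X s) * Polynomial.X := by
  simp [crScale]

theorem crScale_C (c : K) : crScale (S := S) (MvPolynomial.C c) =
    Polynomial.C (MvPolynomial.C c) := by
  rw [crScale, MvPolynomial.aeval_C]
  rfl

theorem crScale_homog {n : ℕ} {f : MvPolynomial S K} (hf : f.IsHomogeneous n) :
    crScale f = Polynomial.C f * Polynomial.X ^ n := by
  classical
  have h1 : ∀ d ∈ f.support, crScale (MvPolynomial.monomial d (f.coeff d)) =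
      Polynomial.C (MvPolynomial.monomial d (f.coeff d)) * Polynomial.X ^ n := by
    intro d hd
    have hdeg : ∑ s ∈ d.support, d s = n := by
      have := hf (MvPolynomial.mem_support_iff.1 hd)
      rw [Finsupp.weight_apply, Finsupp.sum] at this
      simpa using this
    rw [crScale, MvPolynomial.aeval_monomial, Finsupp.prod]
    simp_rw [mul_pow]
    rw [Finset.prod_mul_distrib, Finset.prod_pow_eq_pow_sum, hdeg, ← mul_assoc,
      MvPolynomial.monomial_eq, Finsupp.prod, map_mul, map_prod]
    simp_rw [map_pow]
    rfl
  conv_lhs => rw [f.as_sum]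
  conv_rhs => rw [f.as_sum]
  rw [map_sum, map_sum, Finset.sum_mul]
  exact Finset.sum_congr rfl h1

theorem crScale_eval (f : MvPolynomial S K) :
    (crScale f).eval 0 = MvPolynomial.C (MvPolynomial.constantCoeff f) := by
  have h : ((Polynomial.evalRingHom (0 : MvPolynomial S K)).comp
      (crScale (K := K) (S := S)).toRingHom) =
      (MvPolynomial.C : K →+* MvPolynomial S K).comp MvPolynomial.constantCoeff := by
    apply MvPolynomial.ringHom_ext
    · intro c
      simp [crScale]
    · intro s
      simp [crScale]
  exact congrArg (fun φ => φ f) h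

/-- replacing columns by standard basis vectors, keeping the determinant nonzero -/
theorem cr_columns {R : Type*} [CommRing R] {m : ℕ} (M : Matrix (Fin m) (Fin m) R)
    (hM : M.det ≠ 0) (T : Finset (Fin m)) :
    ∃ J : Fin m → Fin m, (Matrix.of fun i j => if j ∈ T then (if i = J j then (1 : R) else 0)
      else M i j).det ≠ 0 := by
  classical
  induction T using Finset.induction_on with
  | empty =>
    refine ⟨id, ?_⟩
    have : (Matrix.of fun i j => if j ∈ (∅ : Finset (Fin m)) then (if i = id j then (1 : R) else 0)
      else M i j) = M := by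
      ext i j
      simp
    rw [this]
    exact hM
  | insert k T hk ih =>
    obtain ⟨J, hJ⟩ := ih
    set M₁ : Matrix (Fin m) (Fin m) R := Matrix.of fun i j =>
      if j ∈ T then (if i = J j then (1 : R) else 0) else M i j with hM₁
    by_contra hcon
    push Not at hcon
    apply hJ
    -- all the determinants with the column `k` replaced by a basis vector vanish
    have h1 : ∀ i₀ : Fin m, (M₁.updateCol k (Pi.single i₀ 1)).det = 0 := by
      intro i₀
      have := hcon (Function.update J k i₀)
      rw [← this]
      congr 1
      ext i j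
      by_cases hj : j = k
      · subst hj
        rw [Matrix.updateCol_self]
        simp [Pi.single_apply]
      · rw [Matrix.updateCol_ne hj]
        simp only [hM₁, Matrix.of_apply, Finset.mem_insert, hj, false_or,
          Function.update_of_ne hj]
    have h2 : M₁.cramer (fun i => M₁ i k) k = 0 := by
      have h3 : (fun i => M₁ i k) = ∑ i, (M₁ i k) • (Pi.single i (1 : R) : Fin m → R) := by
        funext j
        simp [Finset.sum_apply, Pi.single_apply]
      rw [h3, map_sum, Finset.sum_apply]
      refine Finset.sum_eq_zero fun i _ => ?_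
      rw [map_smul, Pi.smul_apply, Matrix.cramer_apply, h1 i, smul_zero]
    rw [Matrix.cramer_apply] at h2
    rwa [Matrix.updateCol_eq_self] at h2

end

theorem exists_corank {K : Type*} [Field K] {S : Type*} [Fintype S] (n m : ℕ)
    (f h : MvPolynomial S K) (hf : f.IsHomogeneous n) (hf0 : f ≠ 0)
    (hh : MvPolynomial.constantCoeff h ≠ 0) (A0 : Matrix (Fin m) (Fin m) K)
    (A : S → Matrix (Fin m) (Fin m) K) (hdet : (affMat A0 A).det = f * h) :
    (∃ g : MvPolynomial S K, g ≠ 0 ∧ g.totalDegree < n ∧
      ∀ (L : Type u) [Field L] [Algebra K L] (x : S → L) (v : Fin m → L),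
        MvPolynomial.aeval x g ≠ 0 → (A0.map (algebraMap K L)).mulVec v = 0 →
        (∑ s, x s • (A s).map (algebraMap K L)).mulVec v = 0 → v = 0) ∨
    (∃ (B : S → Matrix (Fin n) (Fin n) K) (c : K), c ≠ 0 ∧
      (affMat 0 B).det = MvPolynomial.C c * f) := by
  classical
  -- normal form of the constant part
  obtain ⟨L₁, L₂, D, hA0⟩ := Matrix.Pivot.exists_list_transvec_mul_diagonal_mul_list_transvec A0
  set P : Matrix (Fin m) (Fin m) K := (L₁.map TransvectionStruct.toMatrix).prod with hP
  set Q : Matrix (Fin m) (Fin m) K := (L₂.map TransvectionStruct.toMatrix).prod with hQ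
  have hPdet : P.det = 1 := TransvectionStruct.det_toMatrix_prod L₁
  have hQdet : Q.det = 1 := TransvectionStruct.det_toMatrix_prod L₂
  have hPu : IsUnit P.det := by rw [hPdet]; exact isUnit_one
  have hQu : IsUnit Q.det := by rw [hQdet]; exact isUnit_one
  obtain ⟨B, hB⟩ : ∃ B : S → Matrix (Fin m) (Fin m) K, ∀ s, A s = P * B s * Q := by
    refine ⟨fun s => P⁻¹ * A s * Q⁻¹, fun s => ?_⟩
    change A s = P * (P⁻¹ * A s * Q⁻¹) * Q
    rw [Matrix.mul_assoc P⁻¹, ← Matrix.mul_assoc P, Matrix.mul_nonsing_inv P hPu, Matrix.one_mul,
      Matrix.mul_assoc, Matrix.nonsing_inv_mul Q hQu, Matrix.mul_one]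
  have hAB : affMat A0 A = P.map MvPolynomial.C * affMat (Matrix.diagonal D) B *
      Q.map MvPolynomial.C := by
    have h1 : ∀ (X0 : Matrix (Fin m) (Fin m) K) (X : S → Matrix (Fin m) (Fin m) K),
        affMat X0 X = X0.map MvPolynomial.C +
          ∑ s, (MvPolynomial.X s : MvPolynomial S K) • (X s).map MvPolynomial.C := by
      intro X0 X
      ext1 i j
      simp only [affMat, Matrix.add_apply, Matrix.map_apply, Matrix.sum_apply, Matrix.smul_apply,
        smul_eq_mul]
      congr 1
      refine Finset.sum_congr rfl fun s _ => ?_
      ring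
    rw [h1, h1, Matrix.mul_add, Matrix.add_mul, hA0]
    congr 1
    · rw [Matrix.map_mul, Matrix.map_mul]
    · rw [Matrix.mul_sum, Matrix.sum_mul]
      refine Finset.sum_congr rfl fun s _ => ?_
      rw [hB s, Matrix.map_mul, Matrix.map_mul, Matrix.mul_smul, Matrix.smul_mul]
  have hdetC : ∀ X : Matrix (Fin m) (Fin m) K,
      (X.map (MvPolynomial.C : K →+* MvPolynomial S K)).det = MvPolynomial.C X.det := by
    intro X
    exact (RingHom.map_det (MvPolynomial.C : K →+* MvPolynomial S K) X).symm
  set M : Matrix (Fin m) (Fin m) (MvPolynomial S K) := affMat (Matrix.diagonal D) B with hMdef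
  have hMdet : M.det = f * h := by
    rw [← hdet, hAB, Matrix.det_mul, Matrix.det_mul]
    have e1 := hdetC P
    have e2 := hdetC Q
    rw [hPdet, map_one] at e1
    rw [hQdet, map_one] at e2
    have e1' : (P.map (MvPolynomial.C : K → MvPolynomial S K)).det = 1 := e1
    have e2' : (Q.map (MvPolynomial.C : K → MvPolynomial S K)).det = 1 := e2
    rw [e1', e2', one_mul, mul_one]
  have hh0 : h ≠ 0 := by
    rintro rfl
    simp at hh
  have hMdet0 : M.det ≠ 0 := by
    rw [hMdet]
    exact mul_ne_zero hf0 hh0
  -- the linear part
  let Bm : Matrix (Fin m) (Fin m) (MvPolynomial S K) :=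
    Matrix.of fun i j => ∑ s, MvPolynomial.C (B s i j) * MvPolynomial.X s
  have hM : ∀ i j, M i j = (if i = j then MvPolynomial.C (D i) else 0) + Bm i j := by
    intro i j
    simp only [hMdef, affMat, Bm, Matrix.of_apply, Matrix.diagonal_apply]
    congr 1
    split_ifs <;> simp
  let c : ℕ := (Finset.univ.filter fun j => D j = 0).card
  -- the scaled identity
  let Mt : Matrix (Fin m) (Fin m) (Polynomial (MvPolynomial S K)) :=
    Matrix.of fun i j => if D j = 0 then Polynomial.C (Bm i j) else
      (if i = j then Polynomial.C (MvPolynomial.C (D i)) else 0) +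
        Polynomial.C (Bm i j) * Polynomial.X
  have hBs : ∀ i j, crScale (Bm i j) = Polynomial.C (Bm i j) * Polynomial.X := by
    intro i j
    simp only [Bm, Matrix.of_apply]
    rw [map_sum, map_sum, Finset.sum_mul]
    refine Finset.sum_congr rfl fun s _ => ?_
    rw [map_mul, crScale_C, crScale_X, map_mul, mul_assoc]
  have hfac : M.map (crScale (K := K) (S := S)) =
      Mt * Matrix.diagonal (fun j => if D j = 0 then Polynomial.X else 1) := by
    ext1 i j
    rw [Matrix.mul_diagonal, Matrix.map_apply, hM, map_add, hBs]
    simp only [Mt, Matrix.of_apply]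
    by_cases hj : D j = 0
    · simp only [hj, if_true]
      by_cases hij : i = j
      · subst hij
        simp [hj]
      · simp [hij]
    · simp only [hj, if_false, mul_one]
      congr 1
      split_ifs
      · exact crScale_C _
      · exact map_zero _
  have hscale : Polynomial.C f * Polynomial.X ^ n * crScale h = Mt.det * Polynomial.X ^ c := by
    have h1 : (M.map (crScale (K := K) (S := S))).det = crScale M.det :=
      (AlgHom.map_det (crScale (K := K) (S := S)) M).symm
    rw [hMdet, map_mul, crScale_homog hf, hfac, Matrix.det_mul, Matrix.det_diagonal] at h1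
    rw [← h1, Finset.prod_ite, Finset.prod_const, Finset.prod_const_one, mul_one]
  have hMt0 : ∀ i j, (Mt i j).eval 0 = if D j = 0 then Bm i j else
      (if i = j then MvPolynomial.C (D i) else 0) := by
    intro i j
    simp only [Mt, Matrix.of_apply]
    split_ifs <;> simp
  have hev : ∀ X : Matrix (Fin m) (Fin m) (Polynomial (MvPolynomial S K)),
      X.det.eval 0 = (Matrix.of fun i j => (X i j).eval 0).det := by
    intro X
    exact RingHom.map_det (Polynomial.evalRingHom (0 : MvPolynomial S K)) X
  have hcn : c ≤ n := by
    by_contra hlt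
    push Not at hlt
    have h1 : Polynomial.X ^ n * (Polynomial.C f * crScale h) =
        Polynomial.X ^ n * (Mt.det * Polynomial.X ^ (c - n)) := by
      calc _ = Polynomial.C f * Polynomial.X ^ n * crScale h := by ring
        _ = Mt.det * Polynomial.X ^ c := hscale
        _ = _ := by
          rw [← Nat.add_sub_cancel' hlt.le, pow_add]
          have : n + (c - n) - n = c - n := by omega
          rw [this]
          ring
    have h2 := mul_left_cancel₀ (pow_ne_zero n Polynomial.X_ne_zero) h1
    have h3 := congrArg (fun q => Polynomial.eval 0 q) h2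
    simp only [Polynomial.eval_mul, Polynomial.eval_C, Polynomial.eval_pow, Polynomial.eval_X,
      crScale_eval] at h3
    rw [zero_pow (by omega), mul_zero] at h3
    rcases mul_eq_zero.1 h3 with h4 | h4
    · exact hf0 h4
    · exact hh ((MvPolynomial.C_eq_zero).1 h4)
  rcases hcn.lt_or_eq with hlt | heq
  · -- first alternative
    left
    obtain ⟨J, hJ⟩ := cr_columns M hMdet0 (Finset.univ.filter fun j => D j ≠ 0)
    set Nm : Matrix (Fin m) (Fin m) (MvPolynomial S K) := Matrix.of fun i j =>
      if j ∈ (Finset.univ.filter fun j => D j ≠ 0) then (if i = J j then 1 else 0) else M i j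
      with hNm
    have hNv : ∀ i j, Nm i j = if D j = 0 then Bm i j else (if i = J j then 1 else 0) := by
      intro i j
      simp only [hNm, Matrix.of_apply, Finset.mem_filter, Finset.mem_univ, true_and]
      by_cases hj : D j = 0
      · rw [if_neg (by simpa using hj), if_pos hj, hM]
        by_cases hij : i = j
        · subst hij
          rw [if_pos rfl, hj, map_zero, zero_add]
        · rw [if_neg hij, zero_add]
      · rw [if_pos hj, if_neg hj]
    refine ⟨Nm.det, hJ, lt_of_le_of_lt ?_ hlt, ?_⟩
    · rw [Matrix.det_apply]
      refine MvPolynomial.totalDegree_finsetSum_le fun σ _ => ?_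
      refine (MvPolynomial.totalDegree_smul_le _ _).trans ?_
      refine (MvPolynomial.totalDegree_finsetProd _ _).trans ?_
      have h1 : c = ∑ j : Fin m, if D j = 0 then 1 else 0 := by
        simp [c]
      rw [h1]
      refine Finset.sum_le_sum fun j _ => ?_
      rw [hNv]
      split_ifs with hj hi
      · simp only [Bm, Matrix.of_apply]
        refine MvPolynomial.totalDegree_finsetSum_le fun s _ => ?_
        refine (MvPolynomial.totalDegree_mul _ _).trans ?_
        rw [MvPolynomial.totalDegree_C, MvPolynomial.totalDegree_X]
      · simp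
      · simp
    · intro L _ _ x v hx hv1 hv2
      have hPL : (P.map (algebraMap K L)).det ≠ 0 := by
        have : (P.map (algebraMap K L)).det = algebraMap K L P.det :=
          (RingHom.map_det (algebraMap K L) P).symm
        rw [this, hPdet, map_one]
        exact one_ne_zero
      have hQL : (Q.map (algebraMap K L)).det ≠ 0 := by
        have : (Q.map (algebraMap K L)).det = algebraMap K L Q.det :=
          (RingHom.map_det (algebraMap K L) Q).symm
        rw [this, hQdet, map_one]
        exact one_ne_zero
      set w : Fin m → L := (Q.map (algebraMap K L)).mulVec v with hw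
      have hw1 : ((Matrix.diagonal D).map (algebraMap K L)).mulVec w = 0 := by
        apply Matrix.eq_zero_of_mulVec_eq_zero hPL
        rw [hw, Matrix.mulVec_mulVec, Matrix.mulVec_mulVec, ← Matrix.map_mul, ← Matrix.map_mul,
          ← hA0]
        exact hv1
      have hw2 : (∑ s, x s • (B s).map (algebraMap K L)).mulVec w = 0 := by
        apply Matrix.eq_zero_of_mulVec_eq_zero hPL
        rw [hw, Matrix.mulVec_mulVec, Matrix.mulVec_mulVec]
        have : P.map (algebraMap K L) * (∑ s, x s • (B s).map (algebraMap K L)) *
            Q.map (algebraMap K L) = ∑ s, x s • (A s).map (algebraMap K L) := by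
          rw [Matrix.mul_sum, Matrix.sum_mul]
          refine Finset.sum_congr rfl fun s _ => ?_
          rw [hB s, Matrix.map_mul, Matrix.map_mul, Matrix.mul_smul, Matrix.smul_mul]
        rw [this]
        exact hv2
      have hw0 : ∀ j, D j ≠ 0 → w j = 0 := by
        intro j hj
        have h1 := congrFun hw1 j
        rw [Matrix.diagonal_map (map_zero _), Matrix.mulVec_diagonal] at h1
        simp only [Pi.zero_apply] at h1
        rcases mul_eq_zero.1 h1 with h2 | h2
        · exact absurd ((map_eq_zero _).1 h2) hj
        · exact h2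
      have hNx : (Nm.map (MvPolynomial.aeval x)).det ≠ 0 := by
        have : (Nm.map (MvPolynomial.aeval x)).det = MvPolynomial.aeval x Nm.det :=
          (AlgHom.map_det (MvPolynomial.aeval x) Nm).symm
        rw [this]
        exact hx
      have hNw : (Nm.map (MvPolynomial.aeval x)).mulVec w = 0 := by
        rw [← hw2]
        funext i
        simp only [Matrix.mulVec, dotProduct, Matrix.map_apply]
        refine Finset.sum_congr rfl fun j _ => ?_
        by_cases hj : D j = 0
        · rw [hNv, if_pos hj]
          congr 1
          simp only [Bm, Matrix.of_apply, map_sum, map_mul, MvPolynomial.aeval_C,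
            MvPolynomial.aeval_X, Matrix.sum_apply, Matrix.smul_apply, Matrix.map_apply,
            smul_eq_mul]
          refine Finset.sum_congr rfl fun s _ => ?_
          ring
        · rw [hw0 j hj, mul_zero, mul_zero]
      have hwz := Matrix.eq_zero_of_mulVec_eq_zero hNx hNw
      exact Matrix.eq_zero_of_mulVec_eq_zero hQL (hw.symm.trans hwz)
  · -- second alternative
    right
    have h1 : Polynomial.X ^ n * (Polynomial.C f * crScale h) = Polynomial.X ^ n * Mt.det := by
      calc _ = Polynomial.C f * Polynomial.X ^ n * crScale h := by ring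
        _ = Mt.det * Polynomial.X ^ c := hscale
        _ = _ := by rw [heq]; ring
    have h2 := mul_left_cancel₀ (pow_ne_zero n Polynomial.X_ne_zero) h1
    have h3 := congrArg (fun q => Polynomial.eval 0 q) h2
    simp only [Polynomial.eval_mul, Polynomial.eval_C, crScale_eval] at h3
    rw [hev] at h3
    set M0 : Matrix (Fin m) (Fin m) (MvPolynomial S K) := Matrix.of fun i j => (Mt i j).eval 0
      with hM0
    have hM0v : ∀ i j, M0 i j = if D j = 0 then Bm i j else
        (if i = j then MvPolynomial.C (D i) else 0) := fun i j => hMt0 i j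
    have hblock := Matrix.twoBlockTriangular_det' M0 (fun i => D i = 0) (by
      intro i hi j hj
      rw [hM0v, if_neg hj, if_neg]
      rintro rfl
      exact hj hi)
    have hdiag : (Matrix.toSquareBlockProp M0 fun i => ¬ D i = 0) =
        Matrix.diagonal fun i : {i // ¬ D i = 0} => MvPolynomial.C (D i.1) := by
      ext1 i j
      rw [Matrix.toSquareBlockProp_def, Matrix.of_apply, hM0v, if_neg j.2, Matrix.diagonal_apply]
      by_cases hij : i = j
      · subst hij; simp
      · rw [if_neg hij, if_neg]
        intro h
        exact hij (Subtype.ext h)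
    rw [hdiag, Matrix.det_diagonal] at hblock
    have hcard : Fintype.card {i // D i = 0} = n := by
      rw [Fintype.card_subtype]
      exact heq
    let e : {i // D i = 0} ≃ Fin n := Fintype.equivFinOfCardEq hcard
    let B' : S → Matrix (Fin n) (Fin n) K := fun s =>
      (B s).submatrix (fun i => (e.symm i).1) (fun j => (e.symm j).1)
    let d : K := ∏ i : {i // ¬ D i = 0}, D i.1
    have hd : d ≠ 0 := Finset.prod_ne_zero_iff.2 fun i _ => i.2
    have hB' : affMat 0 B' = Matrix.reindex e e (Matrix.toSquareBlockProp M0 fun i => D i = 0) := by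
      ext1 i j
      rw [Matrix.reindex_apply, Matrix.submatrix_apply, Matrix.toSquareBlockProp_def,
        Matrix.of_apply, hM0v, if_pos (e.symm j).2]
      simp [affMat, Bm, B']
    refine ⟨B', MvPolynomial.constantCoeff h / d, div_ne_zero hh hd, ?_⟩
    rw [hB', Matrix.det_reindex_self]
    have hprod : (∏ i : {i // ¬ D i = 0}, (MvPolynomial.C (D i.1) : MvPolynomial S K)) =
        MvPolynomial.C d := by
      simp only [d, map_prod]
    rw [hprod, ← h3] at hblock
    have hCd : (MvPolynomial.C d : MvPolynomial S K) ≠ 0 := by
      rw [Ne, MvPolynomial.C_eq_zero]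
      exact hd
    apply mul_right_cancel₀ hCd
    rw [← hblock, mul_assoc, mul_comm f (MvPolynomial.C d), ← mul_assoc, ← map_mul,
      div_mul_cancel₀ _ hd, mul_comm]

end Pool.Agent.Helper59.DC
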